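import Pool.Agent.U708.ST.Two

set_option autoImplicit false

/-! # Isometric actions on normed spaces along cocycles (helper708) -/

namespace Pool.Agent.U708.SK

open Finset Filter Topology
open Pool.Agent.R296.RE Pool.Agent.R296.VC Pool.Agent.U708.ST

noncomputable section

/-- a strongly continuous action of `G` on the normed space `B` by contractions which fix zero -/
structure Act (G B : Type) [Group G] [TopologicalSpace G] [NormedAddCommGroup B] where
  act : G → B → B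
  one : ∀ b, act 1 b = b
  mul : ∀ g h b, act (g * h) b = act g (act h b)
  iso : ∀ g a b, ‖act g a - act g b‖ ≤ ‖a - b‖
  zero : ∀ g, act g 0 = 0
  cont : ∀ b, Continuous fun g => act g b

variable {G B : Type} [Group G] [TopologicalSpace G] [NormedAddCommGroup B]

lemma Act.norm_le (A : Act G B) (g : G) (b : B) : ‖A.act g b‖ ≤ ‖b‖ := by
  have := A.iso g b 0
  rwa [A.zero, sub_zero, sub_zero] at this

/-- the functions with `|z b| ≤ ‖b‖` and `|z a - z b| ≤ ‖a - b‖` -/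
def Lip {M : Type*} [NormedAddCommGroup M] (z : M → ℂ) : Prop := (∀ b, ‖z b‖ ≤ ‖b‖) ∧ ∀ a b, ‖z a - z b‖ ≤ ‖a - b‖

/-- the compact space of these functions -/
def Ball (_ : Act G B) : Type := {z : B → ℂ // Lip z}

instance (A : Act G B) : TopologicalSpace (Ball A) := inferInstanceAs (TopologicalSpace {z : B → ℂ // Lip z})

lemma lip_compact : IsCompact {z : B → ℂ | Lip z} := by
  have h1 : IsCompact (Set.pi Set.univ fun b : B => Metric.closedBall (0 : ℂ) ‖b‖) :=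
    isCompact_univ_pi fun b => isCompact_closedBall 0 ‖b‖
  refine h1.of_isClosed_subset ?_ ?_
  · have e : {z : B → ℂ | Lip z} = (⋂ b, {z : B → ℂ | ‖z b‖ ≤ ‖b‖}) ∩ ⋂ a, ⋂ b, {z : B → ℂ | ‖z a - z b‖ ≤ ‖a - b‖} := by
      ext z
      simp only [Lip, Set.mem_ofPred_eq, Set.mem_inter_iff, Set.mem_iInter]
    rw [e]
    refine IsClosed.inter (isClosed_iInter fun b => ?_) (isClosed_iInter fun a => isClosed_iInter fun b => ?_)
    · exact isClosed_le (continuous_apply b).norm continuous_const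
    · exact isClosed_le ((continuous_apply a).sub (continuous_apply b)).norm continuous_const
  · intro z hz b _
    rw [mem_closedBall_zero_iff]
    exact hz.1 b

instance (A : Act G B) : CompactSpace (Ball A) := isCompact_iff_compactSpace.1 lip_compact

instance (A : Act G B) : MulAction G (Ball A) where
  smul g z := ⟨fun b => z.1 (A.act g⁻¹ b), fun b => (z.2.1 _).trans (A.norm_le _ _),
    fun a b => (z.2.2 _ _).trans (A.iso _ _ _)⟩
  one_smul z := by
    refine Subtype.ext (funext fun b => ?_)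
    show z.1 (A.act (1 : G)⁻¹ b) = z.1 b
    rw [inv_one, A.one]
  mul_smul g h z := by
    refine Subtype.ext (funext fun b => ?_)
    show z.1 (A.act (g * h)⁻¹ b) = z.1 (A.act h⁻¹ (A.act g⁻¹ b))
    rw [mul_inv_rev, A.mul]

lemma smul_val (A : Act G B) (g : G) (z : Ball A) (b : B) : (g • z).1 b = z.1 (A.act g⁻¹ b) := rfl

/-- evaluation is jointly continuous -/
lemma eval_cont (A : Act G B) : Continuous fun p : B × Ball A => p.2.1 p.1 := by
  rw [continuous_iff_continuousAt]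
  rintro ⟨b, z⟩
  have h1 : Tendsto (fun p : B × Ball A => p.2.1 b) (𝓝 (b, z)) (𝓝 (z.1 b)) := by
    have : Continuous fun p : B × Ball A => p.2.1 b :=
      (continuous_apply b).comp (continuous_subtype_val.comp continuous_snd)
    exact this.tendsto (b, z)
  refine tendsto_of_tendsto_of_dist h1 ?_
  have h2 : Tendsto (fun p : B × Ball A => ‖b - p.1‖) (𝓝 (b, z)) (𝓝 0) := by
    have : Continuous fun p : B × Ball A => ‖b - p.1‖ := (continuous_const.sub continuous_fst).norm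
    have h3 := this.tendsto (b, z)
    simpa using h3
  refine squeeze_zero (fun _ => dist_nonneg) (fun p => ?_) h2
  rw [dist_eq_norm]
  exact p.2.2.2 _ _

instance [IsTopologicalGroup G] (A : Act G B) : ContinuousSMul G (Ball A) := ⟨by
  refine Continuous.subtype_mk (continuous_pi fun b => ?_) _
  have h1 : Continuous fun p : G × Ball A => (A.act p.1⁻¹ b, p.2) :=
    ((A.cont b).comp (continuous_inv.comp continuous_fst)).prodMk continuous_snd
  exact (eval_cont A).comp h1⟩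

/-- cocycles which are bounded in probability along infinitely many times, with values in a group which acts
isometrically on a normed space -/
theorem dis_act {Y : Type} [TopologicalSpace Y] [CompactSpace Y] [T2Space Y] [IsTopologicalGroup G] [T2Space G]
    (A : Act G B) {f : ℕ → ℤ} (hb : ∀ n, |f n| ≤ 1) {E : Set ℕ} (hE0 : Pool.Agent.R296.SM.LDZ E) (hE : Kf f E)
    {S : Y → Y} (hS : Continuous S) {φ : Y → G} (hφ : Continuous φ) {𝒴 : Set Y}
    (hAP : ∀ c : C(Y, ℂ), UAP {b | ∃ y ∈ 𝒴, b = fun n => c (S^[n] y)}) (hB : Bdd S φ 𝒴) (F : C(Y, B)) :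
    Dis E f {b | ∃ y ∈ 𝒴, ∃ z : B → ℂ, Lip z ∧ b = fun n => z (A.act (prods S φ n y)⁻¹ (F (S^[n] y)))} := by
  have hF : Continuous fun p : Y × Ball A => p.2.1 (F p.1) :=
    (eval_cont A).comp ((F.continuous.comp continuous_fst).prodMk continuous_snd)
  refine (dis_coc hb hE0 hE hS hφ hAP hB ⟨_, hF⟩).mono ?_
  rintro _ ⟨y, hy, z, hz, rfl⟩
  exact ⟨y, hy, ⟨z, hz⟩, rfl⟩

/-- the same for walks driven by a rotation, with steps of bounded variation and mean zero -/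
theorem dis_act_walk [IsTopologicalGroup G] [T2Space G] (A : Act G B) {u : ℕ → ℤ} (hb : ∀ n, |u n| ≤ 1) {E : Set ℕ}
    (hE0 : Pool.Agent.R296.SM.LDZ E) (hE : Kf u E) {d : ℕ} {ℓ : G → Fin d → ℝ}
    (hℓ : Coord ℓ) {ξ : ℝ} (hξ : Irrational ξ) (f : AddCircle (1 : ℝ) → G)
    (hV : ∀ i, BoundedVariationOn (fun x : ℝ => ℓ (f (x : AddCircle (1 : ℝ))) i) (Set.Icc 0 1))
    (h0 : ∀ i, ∫ x in (0 : ℝ)..1, ℓ (f (x : AddCircle (1 : ℝ))) i = 0) (F : C(AddCircle (1 : ℝ), B)) :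
    Dis E u {b | ∃ (y : AddCircle (1 : ℝ)) (z : B → ℂ), Lip z ∧ b = fun n : ℕ =>
      z (A.act (prods (fun y => y + (ξ : AddCircle (1 : ℝ))) f n y)⁻¹ (F (y + n • (ξ : AddCircle (1 : ℝ)))))} := by
  have hF : Continuous fun p : AddCircle (1 : ℝ) × Ball A => p.2.1 (F p.1) :=
    (eval_cont A).comp ((F.continuous.comp continuous_fst).prodMk continuous_snd)
  refine (dis_walk hb hE0 hE hℓ hξ f hV h0 ⟨_, hF⟩).mono ?_
  rintro _ ⟨y, z, hz, rfl⟩
  exact ⟨y, ⟨z, hz⟩, rfl⟩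

end

/-! ### norms -/

section norms

variable {X : Type*} [NormedAddCommGroup X] [NormedSpace ℂ X]

/-- a family of sequences of vectors which is disjoint from `u` in norm, uniformly -/
def NDis (E : Set ℕ) (u : ℕ → ℤ) (𝓥 : Set (ℕ → X)) : Prop := ∀ ε : ℝ, 0 < ε →
  ∃ N₀ : ℕ, ∀ N ≥ N₀, ∀ v ∈ 𝓥, ∀ θ : ℝ, (N ∉ E → ‖∑ n ∈ Icc 1 N, tw u θ n • v n‖ ≤ ε * N) ∧
    ‖∑ n ∈ Icc 1 N, (tw u θ n / n) • v n‖ ≤ ε * Real.log N

theorem ndis_of {E : Set ℕ} {u : ℕ → ℤ} {𝓑 : Set (ℕ → ℂ)} (h : Dis E u 𝓑) {𝓥 : Set (ℕ → X)}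
    (hV : ∀ v ∈ 𝓥, ∀ ρ : StrongDual ℂ X, ‖ρ‖ ≤ 1 → (fun n => ρ (v n)) ∈ 𝓑) : NDis E u 𝓥 := by
  intro ε hε
  obtain ⟨-, N₀, h1⟩ := h ε hε
  refine ⟨N₀, fun N hN v hv θ => ⟨fun hNE => ?_, ?_⟩⟩
  · obtain ⟨ρ, hρ, h2⟩ := exists_dual_vector'' ℂ (∑ n ∈ Icc 1 N, tw u θ n • v n)
    have h3 := (h1 N hN _ (hV v hv ρ hρ) θ).1 hNE
    have h4 : ρ (∑ n ∈ Icc 1 N, tw u θ n • v n) = ∑ n ∈ Icc 1 N, tw u θ n * ρ (v n) := by
      rw [map_sum]
      exact sum_congr rfl fun n _ => by rw [map_smul, smul_eq_mul]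
    rw [← h4, h2] at h3
    simpa using h3
  · obtain ⟨ρ, hρ, h2⟩ := exists_dual_vector'' ℂ (∑ n ∈ Icc 1 N, (tw u θ n / n) • v n)
    have h3 := (h1 N hN _ (hV v hv ρ hρ) θ).2
    have h4 : ρ (∑ n ∈ Icc 1 N, (tw u θ n / n) • v n) = ∑ n ∈ Icc 1 N, tw u θ n * ρ (v n) / n := by
      rw [map_sum]
      exact sum_congr rfl fun n _ => by rw [map_smul, smul_eq_mul]; ring
    rw [← h4, h2] at h3
    simpa using h3

lemma lip_dual {ρ : StrongDual ℂ X} (hρ : ‖ρ‖ ≤ 1) : Lip (fun x => ρ x) := by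
  have h1 : ∀ x, ‖ρ x‖ ≤ ‖x‖ := fun x => (ρ.le_opNorm x).trans (by
    have := mul_le_mul_of_nonneg_right hρ (norm_nonneg x)
    rwa [one_mul] at this)
  exact ⟨h1, fun a b => by
    show ‖ρ a - ρ b‖ ≤ _
    rw [← map_sub]
    exact h1 _⟩

end norms

end Pool.Agent.U708.SK
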